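import Pool.Agent.R441.Q4.N

/-!
Lucas sequences `U_n(b,-1)`, `V_n(b,-1)` for odd `b` at the index `(p-1)/4`.
-/

set_option autoImplicit false
set_option linter.unusedSimpArgs false
set_option linter.unusedVariables false

namespace Pool.Agent.Results.MP_551acd_nt.LucasQuarterOdd

open Pool.Agent.R441.Q4

/-- For a prime `p ≡ 1 (mod 4)`, `b` odd, `p = c² + d² = x² + (b²+4)y²`, `p ≠ b² + 4`, `c ≡ 1 (mod 4)`
and the odd parts of `d`, `x`, `y` congruent to `1` modulo `4`. -/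
theorem result (p : ℕ) [Fact p.Prime] (hp4 : p % 4 = 1) (b c d x y : ℤ) (hb : Odd b)
    (hcd : (p : ℤ) = c ^ 2 + d ^ 2) (hxy : (p : ℤ) = x ^ 2 + (b ^ 2 + 4) * y ^ 2)
    (hpb : (p : ℤ) ≠ b ^ 2 + 4) (hc : c % 4 = 1) (hd : OddPart1 d) (hx : OddPart1 x)
    (hy : OddPart1 y) :
    (c : ZMod p) ≠ 0 ∧ (x : ZMod p) ≠ 0 ∧
    (x % 4 = 2 → (b % 8 = 1 ∨ b % 8 = 3) → 4 ∣ d ∧
      ((LU b ((p - 1) / 4) : ℤ) : ZMod p) = (-1) ^ (d / 4) * (2 * y / x)) ∧
    (x % 4 = 2 → (b % 8 = 5 ∨ b % 8 = 7) → 4 ∣ d ∧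
      ((LU b ((p - 1) / 4) : ℤ) : ZMod p) = -(-1) ^ (d / 4) * (2 * y / x)) ∧
    (y % 4 = 2 → ((LU b ((p - 1) / 4) : ℤ) : ZMod p) = 2 * d * y / (c * x)) ∧
    (4 ∣ y → 4 ∣ d + y ∧ ((LV b ((p - 1) / 4) : ℤ) : ZMod p) = 2 * (-1) ^ ((d + y) / 4)) ∧
    (4 ∣ x → (b % 8 = 1 ∨ b % 8 = 3) →
      ((LV b ((p - 1) / 4) : ℤ) : ZMod p) = -2 * (-1) ^ (x / 4) * (d / c)) ∧
    (4 ∣ x → (b % 8 = 5 ∨ b % 8 = 7) →
      ((LV b ((p - 1) / 4) : ℤ) : ZMod p) = 2 * (-1) ^ (x / 4) * (d / c)) := by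
  have hpp : p.Prime := Fact.out
  have h2 : p ≠ 2 := by omega
  have hb2 : b % 2 = 1 := Int.odd_iff.1 hb
  have hD8 : (b ^ 2 + 4) % 8 = 5 := by have := sq8_odd hb2; omega
  have hc2 : c % 2 = 1 := by omega
  have hq : (p - 1) / 4 = p / 4 := by omega
  rw [hq]
  have hcs := sq8_odd hc2
  have hd2 : d % 2 = 0 := by
    by_contra hne
    have := sq8_odd (z := d) (by omega)
    omega
  have hDpos : 0 < b ^ 2 + 4 := by positivity
  have hx0 := x_ne_zero hxy.symm hDpos (Ne.symm hpb)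
  have h20 := two_ne h2
  have hsg := quarter_sign (F := ZMod p) hcd.symm hc2 hd2
  have hxy' : x ^ 2 + (b ^ 2 + 2 ^ 2) * y ^ 2 = p := by rw [hxy]; ring
  -- the data
  have hcd0 : (c : ZMod p) ^ 2 + (d : ZMod p) ^ 2 = 0 := by
    have := congrArg (Int.cast : ℤ → ZMod p) hcd
    push_cast at this
    rw [← this]
    exact ZMod.natCast_self p
  -- parities
  have px : x % 4 = 2 → d % 4 = 0 ∧ y % 4 = 1 ∧ x % 8 = 2 := by
    intro h
    have e1 := sq8_two h
    have hy2 : y % 2 = 1 := by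
      by_contra hne
      obtain ⟨k, hk⟩ : ∃ k, y = 2 * k := ⟨y / 2, by omega⟩
      have : (b ^ 2 + 4) * y ^ 2 = 4 * ((b ^ 2 + 4) * k ^ 2) := by rw [hk]; ring
      rw [this] at hxy
      omega
    have e2 := mul_mod8 hD8 (sq8_odd hy2)
    refine ⟨?_, hy.odd hy2, hx.two h⟩
    by_contra hne
    have := sq8_two (z := d) (by omega)
    omega
  have px4 : x % 4 = 0 → d % 8 = 2 ∧ y % 4 = 1 := by
    intro h
    have e1 := sq8_four h
    have hy2 : y % 2 = 1 := by
      by_contra hne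
      obtain ⟨k, hk⟩ : ∃ k, y = 2 * k := ⟨y / 2, by omega⟩
      have : (b ^ 2 + 4) * y ^ 2 = 4 * ((b ^ 2 + 4) * k ^ 2) := by rw [hk]; ring
      rw [this] at hxy
      omega
    have e2 := mul_mod8 hD8 (sq8_odd hy2)
    refine ⟨?_, hy.odd hy2⟩
    apply hd.two
    by_contra hne
    have := sq8_four (z := d) (by omega)
    omega
  have pyx : y % 2 = 0 → x % 4 = 1 := by
    intro h
    apply hx.odd
    by_contra hne
    obtain ⟨k, hk⟩ : ∃ k, y = 2 * k := ⟨y / 2, by omega⟩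
    obtain ⟨r, hr⟩ : ∃ r, x = 2 * r := ⟨x / 2, by omega⟩
    have : x ^ 2 + (b ^ 2 + 4) * y ^ 2 = 4 * (r ^ 2 + (b ^ 2 + 4) * k ^ 2) := by rw [hk, hr]; ring
    rw [this] at hxy
    omega
  have py2 : y % 4 = 2 → d % 8 = 2 := by
    intro h
    have e1 := sq8_odd (z := x) (by have := pyx (by omega); omega)
    have e2 := mul_mod8 hD8 (sq8_two h)
    apply hd.two
    by_contra hne
    have := sq8_four (z := d) (by omega)
    omega
  have py4 : y % 4 = 0 → d % 4 = 0 := by
    intro h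
    have e1 := sq8_odd (z := x) (by have := pyx (by omega); omega)
    have e2 := mul_mod8 hD8 (sq8_four h)
    by_contra hne
    have := sq8_two (z := d) (by omega)
    omega
  -- the symbol
  have A1 : x % 4 = 2 → _ := fun h => lucas_main h2 (a := b) (h := 2) (Or.inr rfl) rfl hcd.symm hxy'
    hx0 hc2 hd2 (chi_odd_C1 hpp h2 hb2 hc (px h).1 (px h).2.2 (px h).2.1 hcd.symm hxy.symm
      (Ne.symm hpb))
  have A2 : x % 4 = 0 → _ := fun h => lucas_main h2 (a := b) (h := 2) (Or.inr rfl) rfl hcd.symm hxy'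
    hx0 hc2 hd2 (chi_odd_C2 hpp h2 hb2 hc (px4 h).1 h (px4 h).2 hcd.symm hxy.symm
      (Ne.symm hpb))
  have A3 : y % 2 = 0 → _ := fun h => lucas_main h2 (a := b) (h := 2) (Or.inr rfl) rfl hcd.symm hxy'
    hx0 hc2 hd2 (chi_odd_A hpp h2 hb2 hc hd2 (pyx h) h (fun h' => hy.two h') (fun h' => hd.two h')
      hcd.symm hxy.symm (Ne.symm hpb))
  have hc0 : (c : ZMod p) ≠ 0 := by
    have h3 : x % 4 = 2 ∨ x % 4 = 0 ∨ y % 2 = 0 := by
      by_contra hne
      have e1 := sq8_odd (z := x) (by omega)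
      have e2 := mul_mod8 hD8 (sq8_odd (z := y) (by omega))
      omega
    rcases h3 with h3 | h3 | h3
    · exact (A1 h3).1
    · exact (A2 h3).1
    · exact (A3 h3).1
  have hd0 : (d : ZMod p) ≠ 0 := by
    intro h0
    rw [h0] at hcd0
    have h3 : (c : ZMod p) ^ 2 = 0 := by linear_combination hcd0
    exact hc0 (pow_eq_zero_iff two_ne_zero |>.1 h3)
  obtain ⟨j, hj⟩ : ∃ j : ZMod p, j = (d : ZMod p) / c := ⟨_, rfl⟩
  have hj2 : j ^ 2 = -1 := by
    rw [hj]
    field_simp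
    linear_combination hcd0
  have hji : (c : ZMod p) / d = -j := by
    rw [hj]
    field_simp
    linear_combination hcd0
  have v0 := jp_zero j
  have v1 := jp_one j
  have v2 := jp_two hj2
  have v3 := jp_three hj2
  rw [← hj] at A1 A2 A3
  rw [← hj]
  rw [hji] at A1 A2 A3
  refine ⟨hc0, hx0, ?_, ?_, ?_, ?_, ?_, ?_⟩
  · intro h hb'
    obtain ⟨hd4, -, -⟩ := px h
    refine ⟨by omega, ?_⟩
    obtain ⟨-, -, -, H⟩ := A1 h
    rw [hsg, if_pos hd4, if_pos hb'] at H
    rw [zsign]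
    have hdd : (d / 4) % 2 = 0 ↔ d % 8 = 0 := by omega
    rw [if_congr hdd rfl rfl]
    by_cases h8 : d % 8 = 0
    · rw [if_pos h8] at H ⊢
      have e1 : ((1 : ZMod 4) + 0) = 1 := by decide
      have e2 : -((1 : ZMod 4) + 0) = 3 := by decide
      rw [e2, e1, v1, v3] at H
      field_simp
      apply mul_left_cancel₀ h20
      push_cast at H
      linear_combination H - 4 * y * hj2
    · rw [if_neg h8] at H ⊢
      have e1 : ((1 : ZMod 4) + 2) = 3 := by decide
      have e2 : -((1 : ZMod 4) + 2) = 1 := by decide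
      rw [e2, e1, v1, v3] at H
      field_simp
      apply mul_left_cancel₀ h20
      push_cast at H
      linear_combination H + 4 * y * hj2
  · intro h hb'
    obtain ⟨hd4, -, -⟩ := px h
    refine ⟨by omega, ?_⟩
    obtain ⟨-, -, -, H⟩ := A1 h
    rw [hsg, if_pos hd4, if_neg (by omega)] at H
    rw [zsign]
    have hdd : (d / 4) % 2 = 0 ↔ d % 8 = 0 := by omega
    rw [if_congr hdd rfl rfl]
    by_cases h8 : d % 8 = 0
    · rw [if_pos h8] at H ⊢
      have e1 : ((3 : ZMod 4) + 0) = 3 := by decide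
      have e2 : -((3 : ZMod 4) + 0) = 1 := by decide
      rw [e2, e1, v1, v3] at H
      field_simp
      apply mul_left_cancel₀ h20
      push_cast at H
      linear_combination H + 4 * y * hj2
    · rw [if_neg h8] at H ⊢
      have e1 : ((3 : ZMod 4) + 2) = 1 := by decide
      have e2 : -((3 : ZMod 4) + 2) = 3 := by decide
      rw [e2, e1, v1, v3] at H
      field_simp
      apply mul_left_cancel₀ h20
      push_cast at H
      linear_combination H - 4 * y * hj2
  · intro h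
    have hd8 := py2 h
    obtain ⟨-, -, -, H⟩ := A3 (by omega)
    rw [hsg, if_neg (show ¬ d % 4 = 0 by omega), if_pos h] at H
    have e2 : -(2 : ZMod 4) = 2 := by decide
    rw [e2, v2] at H
    have e3 : (2 * d * y / (c * x) : ZMod p) = 2 * j * y / x := by
      rw [hj]
      field_simp
    rw [e3]
    field_simp
    apply mul_left_cancel₀ h20
    push_cast at H
    linear_combination H
  · intro h
    have h4 : y % 4 = 0 := by omega
    have hd4 := py4 h4
    refine ⟨by omega, ?_⟩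
    obtain ⟨-, -, H, -⟩ := A3 (by omega)
    rw [hsg, if_pos hd4, if_neg (by omega)] at H
    rw [zsign]
    have hdd : ((d + y) / 4) % 2 = 0 ↔ (d + y) % 8 = 0 := by omega
    rw [if_congr hdd rfl rfl]
    by_cases h8 : (d + y) % 8 = 0
    · rw [if_pos h8] at H ⊢
      have e2 : -(0 : ZMod 4) = 0 := by decide
      rw [e2, v0] at H
      linear_combination H
    · rw [if_neg h8] at H ⊢
      have e2 : -(2 : ZMod 4) = 2 := by decide
      rw [e2, v2] at H
      linear_combination H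
  · intro h hb'
    have h4 : x % 4 = 0 := by omega
    obtain ⟨hd8, -⟩ := px4 h4
    obtain ⟨-, -, H, -⟩ := A2 h4
    rw [hsg, if_neg (show ¬ d % 4 = 0 by omega), if_pos hb'] at H
    rw [zsign]
    have hdd : (x / 4) % 2 = 0 ↔ x % 8 = 0 := by omega
    rw [if_congr hdd rfl rfl]
    by_cases h8 : x % 8 = 0
    · rw [if_pos h8] at H ⊢
      have e1 : ((3 : ZMod 4) + 0) = 3 := by decide
      have e2 : -((3 : ZMod 4) + 0) = 1 := by decide
      rw [e2, e1, v1, v3] at H
      linear_combination H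
    · rw [if_neg h8] at H ⊢
      have e1 : ((3 : ZMod 4) + 2) = 1 := by decide
      have e2 : -((3 : ZMod 4) + 2) = 3 := by decide
      rw [e2, e1, v1, v3] at H
      linear_combination H
  · intro h hb'
    have h4 : x % 4 = 0 := by omega
    obtain ⟨hd8, -⟩ := px4 h4
    obtain ⟨-, -, H, -⟩ := A2 h4
    rw [hsg, if_neg (show ¬ d % 4 = 0 by omega), if_neg (by omega)] at H
    rw [zsign]
    have hdd : (x / 4) % 2 = 0 ↔ x % 8 = 0 := by omega
    rw [if_congr hdd rfl rfl]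
    by_cases h8 : x % 8 = 0
    · rw [if_pos h8] at H ⊢
      have e1 : ((1 : ZMod 4) + 0) = 1 := by decide
      have e2 : -((1 : ZMod 4) + 0) = 3 := by decide
      rw [e2, e1, v1, v3] at H
      linear_combination H
    · rw [if_neg h8] at H ⊢
      have e1 : ((1 : ZMod 4) + 2) = 3 := by decide
      have e2 : -((1 : ZMod 4) + 2) = 1 := by decide
      rw [e2, e1, v1, v3] at H
      linear_combination H

end Pool.Agent.Results.MP_551acd_nt.LucasQuarterOdd
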